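import Pool.Agent.H50.G.B.R529.BU.Phi
/-!
The asymptotic formula for the number of integers without small prime factors.
-/

set_option autoImplicit false

open Finset Filter Topology
open Pool.Agent.H510R2.Maier Pool.Agent.R529.LD

namespace Pool.Agent.R529.BU

/-- the asymptotic formula in the range `z ^ (1 + δ) ≤ x ≤ z ^ n` -/
def QA (n : ℕ) : Prop := ∀ δ ε : ℝ, 0 < δ → 0 < ε → ∃ z0 : ℝ, ∀ z : ℝ, z0 ≤ z → ∀ x : ℝ,
  z ^ (1 + δ) ≤ x → x ≤ z ^ (n : ℝ) →
  |((RR x z).card : ℝ) * Real.log x - x * WW (Real.log x / Real.log z)| ≤ ε * x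

theorem pi_real (ε : ℝ) (hε : 0 < ε) : ∀ᶠ x : ℝ in atTop,
    (1 - ε) * x ≤ (Nat.primeCounting ⌊x⌋₊ : ℝ) * Real.log x ∧
      (Nat.primeCounting ⌊x⌋₊ : ℝ) * Real.log x ≤ (1 + ε) * x := by
  have h1 := Pool.Agent.Helper601.PNT.pi_tendsto.eventually
    (Ioo_mem_nhds (show 1 - ε < 1 by linarith) (show 1 < 1 + ε by linarith))
  filter_upwards [h1, eventually_gt_atTop (0 : ℝ)] with x h2 h3
  obtain ⟨h4, h5⟩ := h2
  rw [lt_div_iff₀ h3] at h4
  rw [div_lt_iff₀ h3] at h5
  exact ⟨h4.le, h5.le⟩

theorem log_small (a ε : ℝ) (ha : a < 1) (hε : 0 < ε) : ∀ᶠ x : ℝ in atTop, x ^ a * Real.log x ≤ ε * x := by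
  have h1 := (isLittleO_log_rpow_atTop (show (0 : ℝ) < 1 - a by linarith)).def hε
  filter_upwards [h1, eventually_gt_atTop (1 : ℝ)] with x h2 h3
  have hx0 : 0 < x := by linarith
  have hl := Real.log_pos h3
  rw [Real.norm_eq_abs, abs_of_nonneg hl.le, Real.norm_eq_abs, abs_of_nonneg (by positivity)] at h2
  calc x ^ a * Real.log x ≤ x ^ a * (ε * x ^ (1 - a)) := by gcongr
    _ = ε * (x ^ a * x ^ (1 - a)) := by ring
    _ = ε * x := by rw [← Real.rpow_add hx0]; simp

theorem QA_two : QA 2 := by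
  intro δ ε hδ hε
  have ha : 1 / (1 + δ) < 1 := by rw [div_lt_one (by linarith)]; linarith
  have hev := ((pi_real (ε / 4) (by positivity)).and (log_small (1 / (1 + δ)) (ε / 4) ha (by positivity))).and
    ((log_small 0 (ε / 4) one_pos (by positivity)).and (eventually_ge_atTop (2 : ℝ)))
  obtain ⟨X1, hX1⟩ := eventually_atTop.1 hev
  refine ⟨max 2 X1, fun z hz x hx1 hx2 => ?_⟩
  have hz2 : 2 ≤ z := (le_max_left _ _).trans hz
  have hz0 : 0 < z := by linarith
  have hzx : z ≤ x := by
    refine le_trans ?_ hx1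
    calc z = z ^ (1 : ℝ) := (Real.rpow_one z).symm
      _ ≤ z ^ (1 + δ) := Real.rpow_le_rpow_of_exponent_le (by linarith) (by linarith)
  obtain ⟨⟨⟨h1, h2⟩, h3⟩, h4, h5⟩ := hX1 x ((le_max_right _ _).trans (hz.trans hzx))
  have hx0 : 0 < x := by linarith
  have hlz := Real.log_pos (show 1 < z by linarith)
  have hlx := Real.log_pos (show 1 < x by linarith)
  rw [Real.rpow_zero, one_mul] at h4
  have hx2' : x ≤ z ^ 2 := by
    have : z ^ ((2 : ℕ) : ℝ) = z ^ 2 := Real.rpow_natCast z 2
    rw [this] at hx2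
    exact hx2
  have hu1 : 1 ≤ Real.log x / Real.log z := by
    rw [le_div_iff₀ hlz, one_mul]
    exact Real.log_le_log hz0 hzx
  have hu2 : Real.log x / Real.log z ≤ 2 := by
    rw [div_le_iff₀ hlz]
    have := Real.log_le_log hx0 hx2'
    rw [Real.log_pow] at this
    push_cast at this
    exact this
  have hW : WW (Real.log x / Real.log z) = 1 := om_one_two _ hu1 hu2
  rw [hW, mul_one]
  have hzx' : z ≤ x ^ (1 / (1 + δ)) := by
    calc z = (z ^ (1 + δ)) ^ (1 / (1 + δ)) := by
          rw [← Real.rpow_mul hz0.le, mul_one_div_cancel (by linarith), Real.rpow_one]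
      _ ≤ x ^ (1 / (1 + δ)) := Real.rpow_le_rpow (by positivity) hx1 (by positivity)
  have g1 := RR_prime_up x z (by linarith) hx0.le hx2'
  have g2 := RR_prime_lo x z (by linarith) hx0.le
  have g3 : z * Real.log x ≤ ε / 4 * x := (mul_le_mul_of_nonneg_right hzx' hlx.le).trans h3
  have g4 := mul_le_mul_of_nonneg_right g1 hlx.le
  have g5 := mul_le_mul_of_nonneg_right g2 hlx.le
  rw [abs_le]
  constructor
  · nlinarith
  · nlinarith

theorem AA_mono {x a b : ℝ} (hx : 1 < x) (ha : 1 ≤ a) (hb : 1 ≤ b) (g g' : ℝ → ℝ)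
    (hg : ∀ s, a ≤ s → s ≤ b → g s ≤ g' s) : AA x a b g ≤ AA x a b g' := by
  apply Finset.sum_le_sum
  intro p hp
  obtain ⟨h1, h2, h3, h4⟩ := mem_cell hx ha hb hp
  have hlx := Real.log_pos hx
  exact mul_le_mul_of_nonneg_right (hg _ h1 h2) (by positivity)

theorem AA_const (x a b c : ℝ) : AA x a b (fun _ => c) = c * AA x a b (fun _ => 1) := by
  unfold AA
  rw [Finset.mul_sum]
  apply Finset.sum_congr rfl
  intro p _
  ring

open Classical in
/-- the error weight -/
noncomputable def gb (e m : ℝ) (v : ℝ) : ℝ := e + if v < m then 3 else 0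

theorem gb_nonneg (e m v : ℝ) (he : 0 ≤ e) : 0 ≤ gb e m v := by
  unfold gb
  split_ifs <;> linarith

theorem AA_gb {x e δ u : ℝ} (n : ℕ) (hn : 2 ≤ n) (hx : 1 < x) (he : 0 ≤ e) (hδ : 0 ≤ δ) (hδ1 : δ ≤ 1)
    (hu1 : (n : ℝ) ≤ u) (hu2 : u ≤ n + 1) :
    AA x n u (gb e (n + δ)) ≤ e * AA x n (n + 1) (fun _ => 1) + 3 * AA x n (n + δ) (fun _ => 1) := by
  have hn2 : (2 : ℝ) ≤ n := by exact_mod_cast hn
  have h1 : AA x n u (gb e (n + δ)) ≤ AA x n (n + 1) (gb e (n + δ)) := by
    rw [AA_add hx.le (by linarith) hu1 hu2]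
    have := AA_nonneg hx (show 1 ≤ u by linarith) (show (1 : ℝ) ≤ n + 1 by linarith) (gb e (n + δ))
      (fun s _ _ => gb_nonneg _ _ _ he)
    linarith
  have h2 : AA x n (n + 1) (gb e (n + δ)) = AA x n (n + δ) (gb e (n + δ)) + AA x (n + δ) (n + 1) (gb e (n + δ)) :=
    AA_add hx.le (by linarith) (by linarith) (by linarith) _
  have h3 : AA x n (n + 1) (fun _ => 1) = AA x n (n + δ) (fun _ => 1) + AA x (n + δ) (n + 1) (fun _ => 1) :=
    AA_add hx.le (by linarith) (by linarith) (by linarith) _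
  have h4 : AA x n (n + δ) (gb e (n + δ)) ≤ (e + 3) * AA x n (n + δ) (fun _ => 1) := by
    rw [← AA_const]
    apply AA_mono hx (by linarith) (by linarith)
    intro s _ _
    unfold gb
    split_ifs <;> linarith
  have h5 : AA x (n + δ) (n + 1) (gb e (n + δ)) ≤ e * AA x (n + δ) (n + 1) (fun _ => 1) := by
    rw [← AA_const]
    apply AA_mono hx (by linarith) (by linarith)
    intro s hs _
    unfold gb
    rw [if_neg (not_lt.2 hs), add_zero]
  rw [h2] at h1
  rw [h3]
  linarith

/-- one term of the sum -/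
theorem term_bd (n : ℕ) (hn : 2 ≤ n) (IH : QA n) (δ e : ℝ) (hδ : 0 < δ) (hδ1 : δ ≤ 1) (he : 0 < e) :
    ∃ z0 : ℝ, ∀ p : ℕ, z0 ≤ p → p.Prime → ∀ x : ℝ, 1 < x → (n : ℝ) ≤ Real.log x / Real.log p →
      Real.log x / Real.log p ≤ n + 1 →
      |((RR (x / p) p).card : ℝ) * Real.log x -
        x * (om (Real.log x / Real.log p - 1) * (Real.log x / (p * Real.log p)))| ≤
        x * (gb e (n + δ) (Real.log x / Real.log p) * (Real.log x / (p * Real.log p))) := by
  have hn2 : (2 : ℝ) ≤ n := by exact_mod_cast hn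
  obtain ⟨z1, hz1⟩ := IH δ e hδ he
  obtain ⟨Y0, hY0⟩ := eventually_atTop.1 (pi_real 1 one_pos)
  refine ⟨max (max 2 z1) Y0, fun p hp hpp x hx hu1 hu2 => ?_⟩
  have hpz : z1 ≤ p := (le_max_right _ _).trans ((le_max_left _ _).trans hp)
  have hpY : Y0 ≤ p := (le_max_right _ _).trans hp
  have hp2 : (2 : ℝ) ≤ p := (le_max_left _ _).trans ((le_max_left _ _).trans hp)
  have hp0 : (0 : ℝ) < p := by linarith
  have hx0 : 0 < x := by linarith
  have hlp : 0 < Real.log p := Real.log_pos (by linarith)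
  have hlx := Real.log_pos hx
  set v := Real.log x / Real.log p - 1 with hv
  have hv1 : 1 ≤ v := by linarith
  have hly : Real.log (x / p) = v * Real.log p := by
    rw [Real.log_div hx0.ne' hp0.ne', hv]
    field_simp
  have hly0 : 0 < Real.log (x / p) := by rw [hly]; positivity
  have hy : x / p = (p : ℝ) ^ v := by
    rw [Real.rpow_def_of_pos hp0, mul_comm, ← hly, Real.exp_log (by positivity)]
  have hw : 0 < Real.log x / (p * Real.log p) := by positivity
  have hom1 := om_ge v hv1
  have hom2 := om_le v hv1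
  set C : ℝ := ((RR (x / p) p).card : ℝ) with hC
  have hC0 : 0 ≤ C := Nat.cast_nonneg _
  rcases le_or_gt (1 + δ) v with hgood | hbad
  · -- the asymptotic formula
    have h1 := hz1 p hpz (x / p) (by
        rw [hy]
        exact Real.rpow_le_rpow_of_exponent_le (by linarith) hgood) (by
        rw [hy]
        exact Real.rpow_le_rpow_of_exponent_le (by linarith) (by linarith))
    rw [hly, mul_div_cancel_right₀ _ hlp.ne'] at h1
    unfold WW at h1
    have h2 : C * Real.log x - x * (om v * (Real.log x / (p * Real.log p))) =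
        (C * (v * Real.log p) - x / p * (v * om v)) * (Real.log x / (v * Real.log p)) := by
      field_simp
    rw [h2, abs_mul, abs_of_nonneg (show 0 ≤ Real.log x / (v * Real.log p) by positivity)]
    calc |C * (v * Real.log p) - x / p * (v * om v)| * (Real.log x / (v * Real.log p))
        ≤ (e * (x / p)) * (Real.log x / (v * Real.log p)) := mul_le_mul_of_nonneg_right h1 (by positivity)
      _ = x * ((e / v) * (Real.log x / (p * Real.log p))) := by field_simp
      _ ≤ x * (gb e (n + δ) (Real.log x / Real.log p) * (Real.log x / (p * Real.log p))) := by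
          apply mul_le_mul_of_nonneg_left _ hx0.le
          apply mul_le_mul_of_nonneg_right _ hw.le
          have h3 : e / v ≤ e := div_le_self he.le hv1
          unfold gb
          split_ifs <;> linarith
  · have hn3 : n = 2 := by
      by_contra hne
      have h1 : 3 ≤ n := by omega
      have h2 : (3 : ℝ) ≤ n := by exact_mod_cast h1
      linarith
    have hg : gb e (n + δ) (Real.log x / Real.log p) = e + 3 := by
      unfold gb
      rw [if_pos]
      rw [hn3]
      push_cast
      linarith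
    rw [hg]
    have hyp : (p : ℝ) ≤ x / p := by
      rw [hy]
      calc (p : ℝ) = (p : ℝ) ^ (1 : ℝ) := (Real.rpow_one _).symm
        _ ≤ (p : ℝ) ^ v := Real.rpow_le_rpow_of_exponent_le (by linarith) hv1
    have hyp2 : x / p ≤ (p : ℝ) ^ 2 := by
      rw [hy]
      calc (p : ℝ) ^ v ≤ (p : ℝ) ^ (2 : ℝ) := Real.rpow_le_rpow_of_exponent_le (by linarith) (by linarith)
        _ = (p : ℝ) ^ 2 := by norm_num
    have h1 := RR_prime_up (x / p) p (by linarith) (by positivity) hyp2
    have h2 := (hY0 (x / p) (hpY.trans hyp)).2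
    have h3 : C * Real.log p ≤ 3 * (x / p) := by
      have h4 : Real.log p ≤ Real.log (x / p) := Real.log_le_log hp0 hyp
      have h5 : Real.log p ≤ p := by
        have := Real.log_le_sub_one_of_pos hp0
        linarith
      calc C * Real.log p ≤ (1 + (Nat.primeCounting ⌊x / p⌋₊ : ℝ)) * Real.log p := by gcongr
        _ = Real.log p + (Nat.primeCounting ⌊x / p⌋₊ : ℝ) * Real.log p := by ring
        _ ≤ p + (Nat.primeCounting ⌊x / p⌋₊ : ℝ) * Real.log (x / p) := by gcongr
        _ ≤ x / p + (1 + 1) * (x / p) := add_le_add hyp h2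
        _ = _ := by ring
    have h6 : C * Real.log x ≤ x * (3 * (Real.log x / (p * Real.log p))) := by
      have h7 : C ≤ 3 * (x / p) / Real.log p := by rw [le_div_iff₀ hlp]; exact h3
      calc C * Real.log x ≤ 3 * (x / p) / Real.log p * Real.log x := mul_le_mul_of_nonneg_right h7 hlx.le
        _ = _ := by field_simp
    have h8 : x * (om v * (Real.log x / (p * Real.log p))) ≤ x * (3 * (Real.log x / (p * Real.log p))) := by
      apply mul_le_mul_of_nonneg_left _ hx0.le
      apply mul_le_mul_of_nonneg_right _ hw.le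
      linarith
    have h9 : 0 ≤ x * (om v * (Real.log x / (p * Real.log p))) := by
      have : 0 ≤ om v := by linarith
      positivity
    have h10 : 0 ≤ C * Real.log x := by positivity
    have h11 : 0 ≤ x * (e * (Real.log x / (p * Real.log p))) := by positivity
    have h12 : x * ((e + 3) * (Real.log x / (p * Real.log p))) =
      x * (e * (Real.log x / (p * Real.log p))) + x * (3 * (Real.log x / (p * Real.log p))) := by ring
    rw [h12, abs_le]
    constructor
    · linarith
    · linarith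

end Pool.Agent.R529.BU
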