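import Mathlib

/-!
Buchstab's function.
-/

set_option autoImplicit false

open Filter Topology Set intervalIntegral

namespace Pool.Agent.R529.BU

/-- the iterates -/
noncomputable def G : ℕ → ℝ → ℝ
  | 0 => fun u => 1 / max 1 u
  | (n + 1) => fun u => (1 + ∫ s in (1 : ℝ)..(max 1 (u - 1)), G n s) / max 1 u

theorem G_zero (u : ℝ) : G 0 u = 1 / max 1 u := rfl

theorem G_succ (n : ℕ) (u : ℝ) : G (n + 1) u = (1 + ∫ s in (1 : ℝ)..(max 1 (u - 1)), G n s) / max 1 u := rfl

theorem max_ne (u : ℝ) : max 1 u ≠ 0 := (lt_of_lt_of_le one_pos (le_max_left _ _)).ne'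

theorem G_cont (n : ℕ) : Continuous (G n) := by
  induction n with
  | zero =>
    have : G 0 = fun u => 1 / max 1 u := by funext u; exact G_zero u
    rw [this]
    exact continuous_const.div (continuous_const.max continuous_id) max_ne
  | succ n ih =>
    have : G (n + 1) = fun u => (1 + ∫ s in (1 : ℝ)..(max 1 (u - 1)), G n s) / max 1 u := by
      funext u; exact G_succ n u
    rw [this]
    refine Continuous.div ?_ (continuous_const.max continuous_id) max_ne
    refine continuous_const.add ?_
    have h1 : Continuous (fun b : ℝ => ∫ s in (1 : ℝ)..b, G n s) :=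
      intervalIntegral.continuous_primitive (fun a b => ih.intervalIntegrable a b) 1
    exact h1.comp (continuous_const.max (continuous_id.sub continuous_const))

theorem G_stable (n : ℕ) : ∀ u : ℝ, u ≤ n + 2 → G (n + 1) u = G n u := by
  induction n with
  | zero =>
    intro u hu
    rw [G_succ, G_zero, max_eq_left (by push_cast at hu; linarith), integral_same, add_zero]
  | succ n ih =>
    intro u hu
    rw [G_succ, G_succ]
    congr 2
    apply integral_congr
    intro s hs
    rw [uIcc_of_le (le_max_left _ _)] at hs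
    apply ih
    push_cast at hu
    have h1 : (0 : ℝ) ≤ n := Nat.cast_nonneg n
    rcases le_total 1 (u - 1) with h | h
    · rw [max_eq_right h] at hs
      linarith [hs.2]
    · rw [max_eq_left h] at hs
      linarith [hs.2]

theorem G_stable' (n m : ℕ) (h : n ≤ m) (u : ℝ) (hu : u ≤ n + 2) : G m u = G n u := by
  induction m, h using Nat.le_induction with
  | base => rfl
  | succ m hm ih =>
    rw [G_stable m u ?_, ih]
    have : (n : ℝ) ≤ m := by exact_mod_cast hm
    linarith

/-- Buchstab's function -/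
noncomputable def om (u : ℝ) : ℝ := G ⌈u⌉₊ u

theorem om_eq (n : ℕ) (u : ℝ) (hu : u ≤ n + 2) : om u = G n u := by
  unfold om
  rcases le_total n ⌈u⌉₊ with h | h
  · exact G_stable' n _ h u hu
  · refine (G_stable' _ n h u ?_).symm
    have := Nat.le_ceil u
    linarith

theorem om_cont : Continuous om := by
  rw [continuous_iff_continuousAt]
  intro u
  have h1 : ∀ᶠ v in 𝓝 u, v < u + 1 := Iio_mem_nhds (by linarith)
  have h2 : om =ᶠ[𝓝 u] G ⌈u⌉₊ := by
    filter_upwards [h1] with v hv
    apply om_eq
    have := Nat.le_ceil u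
    linarith
  exact ContinuousAt.congr (G_cont _).continuousAt h2.symm

theorem om_rec (u : ℝ) : om u = (1 + ∫ s in (1 : ℝ)..(max 1 (u - 1)), om s) / max 1 u := by
  have h1 := Nat.le_ceil u
  rw [om_eq (⌈u⌉₊ + 1) u (by push_cast; linarith), G_succ]
  congr 2
  apply integral_congr
  intro s hs
  rw [uIcc_of_le (le_max_left _ _)] at hs
  refine (om_eq _ s ?_).symm
  rcases le_total 1 (u - 1) with h | h
  · rw [max_eq_right h] at hs
    linarith [hs.2]
  · rw [max_eq_left h] at hs
    have : (0 : ℝ) ≤ ⌈u⌉₊ := Nat.cast_nonneg _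
    linarith [hs.2]

theorem om_one_two (u : ℝ) (h1 : 1 ≤ u) (h2 : u ≤ 2) : u * om u = 1 := by
  rw [om_rec, max_eq_left (show u - 1 ≤ 1 by linarith), integral_same, add_zero, max_eq_right h1]
  field_simp

theorem om_two (u : ℝ) (h2 : 2 ≤ u) : u * om u = 1 + ∫ s in (1 : ℝ)..(u - 1), om s := by
  nth_rewrite 1 [om_rec]
  rw [max_eq_right (show 1 ≤ u - 1 by linarith), max_eq_right (show 1 ≤ u by linarith)]
  field_simp

/-- the weighted function -/
noncomputable def WW (u : ℝ) : ℝ := u * om u

theorem WW_cont : Continuous WW := continuous_id.mul om_cont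

theorem WW_sub (u v : ℝ) (hv : 2 ≤ v) (hu : 2 ≤ u) : WW u - WW v = ∫ s in (v - 1)..(u - 1), om s := by
  unfold WW
  rw [om_two u hu, om_two v hv]
  have h : ∀ a b : ℝ, IntervalIntegrable om MeasureTheory.volume a b := fun a b => om_cont.intervalIntegrable a b
  rw [← integral_interval_sub_left (h 1 (u - 1)) (h 1 (v - 1))]
  ring

theorem om_bounds (n : ℕ) : ∀ u : ℝ, 1 ≤ u → u ≤ n + 2 → 1 / 2 ≤ om u ∧ om u ≤ 1 := by
  induction n with
  | zero =>
    intro u h1 h2
    norm_num at h2
    have h3 := om_one_two u h1 h2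
    constructor
    · nlinarith
    · nlinarith
  | succ n ih =>
    intro u h1 h2
    rcases le_total u 2 with h | h
    · have h3 := om_one_two u h1 h
      constructor
      · nlinarith
      · nlinarith
    · push_cast at h2
      have h3 := om_two u h
      have h4 : ∀ s ∈ Icc (1 : ℝ) (u - 1), 1 / 2 ≤ om s ∧ om s ≤ 1 := fun s hs => ih s hs.1 (by linarith [hs.2])
      have h5 : ∫ s in (1 : ℝ)..(u - 1), (1 / 2 : ℝ) ≤ ∫ s in (1 : ℝ)..(u - 1), om s :=
        integral_mono_on (by linarith) intervalIntegrable_const (om_cont.intervalIntegrable _ _) fun s hs => (h4 s hs).1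
      have h6 : ∫ s in (1 : ℝ)..(u - 1), om s ≤ ∫ s in (1 : ℝ)..(u - 1), (1 : ℝ) :=
        integral_mono_on (by linarith) (om_cont.intervalIntegrable _ _) intervalIntegrable_const fun s hs => (h4 s hs).2
      rw [integral_const, smul_eq_mul] at h5 h6
      constructor
      · nlinarith
      · nlinarith

theorem om_ge (u : ℝ) (h1 : 1 ≤ u) : 1 / 2 ≤ om u :=
  (om_bounds ⌈u⌉₊ u h1 (by linarith [Nat.le_ceil u])).1

theorem om_le (u : ℝ) (h1 : 1 ≤ u) : om u ≤ 1 :=
  (om_bounds ⌈u⌉₊ u h1 (by linarith [Nat.le_ceil u])).2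

end Pool.Agent.R529.BU
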