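import Pool.Agent.H50.G.B.R529.LD.Cells
import Pool.Agent.H50.G.B.R529.BU.W
/-!
Sums over primes with a continuous weight in `log x / log p`.
-/

set_option autoImplicit false

open Finset Filter Topology
open Pool.Agent.H510R2.Maier Pool.Agent.R529.LD

namespace Pool.Agent.R529.BU

/-- the weighted sum over the primes `x ^ (1 / b) < p ≤ x ^ (1 / a)` -/
noncomputable def AA (x a b : ℝ) (g : ℝ → ℝ) : ℝ :=
  ∑ p ∈ PI ⌊x ^ (1 / b)⌋₊ ⌊x ^ (1 / a)⌋₊, g (Real.log x / Real.log p) * (Real.log x / (p * Real.log p))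

theorem mem_cell {x a b : ℝ} {p : ℕ} (hx : 1 < x) (ha : 1 ≤ a) (hb : 1 ≤ b) (hp : p ∈ PI ⌊x ^ (1 / b)⌋₊ ⌊x ^ (1 / a)⌋₊) :
    a ≤ Real.log x / Real.log p ∧ Real.log x / Real.log p ≤ b ∧ 0 < Real.log p ∧ (0 : ℝ) < p := by
  obtain ⟨⟨h1, h2⟩, h3⟩ := mem_PI.1 hp
  have hx0 : 0 < x := by linarith
  have hp1 : (1 : ℝ) < p := by exact_mod_cast h3.one_lt
  have hlp := Real.log_pos hp1
  have h4 : x ^ (1 / b) < p := (Nat.floor_lt (by positivity)).1 h1
  have h5 : (p : ℝ) ≤ x ^ (1 / a) := (Nat.cast_le.2 h2).trans (Nat.floor_le (by positivity))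
  have h6 : 1 / b * Real.log x ≤ Real.log p := by
    rw [← Real.log_rpow hx0]
    exact Real.log_le_log (by positivity) h4.le
  have h7 : Real.log p ≤ 1 / a * Real.log x := by
    rw [← Real.log_rpow hx0]
    exact Real.log_le_log (by linarith) h5
  refine ⟨?_, ?_, hlp, by linarith⟩
  · rw [le_div_iff₀ hlp]
    calc a * Real.log p ≤ a * (1 / a * Real.log x) := by gcongr
      _ = Real.log x := by field_simp
  · rw [div_le_iff₀ hlp]
    calc Real.log x = b * (1 / b * Real.log x) := by field_simp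
      _ ≤ b * Real.log p := by gcongr

theorem floor_le_floor {x a b : ℝ} (hx : 1 ≤ x) (ha : 0 < a) (hab : a ≤ b) : ⌊x ^ (1 / b)⌋₊ ≤ ⌊x ^ (1 / a)⌋₊ := by
  apply Nat.floor_le_floor
  exact Real.rpow_le_rpow_of_exponent_le hx (one_div_le_one_div_of_le ha hab)

theorem AA_add {x a b c : ℝ} (hx : 1 ≤ x) (ha : 0 < a) (hab : a ≤ b) (hbc : b ≤ c) (g : ℝ → ℝ) :
    AA x a c g = AA x a b g + AA x b c g := by
  unfold AA
  rw [sum_split _ (floor_le_floor hx (by linarith) hbc) (floor_le_floor hx ha hab)]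
  ring

theorem AA_nonneg {x a b : ℝ} (hx : 1 < x) (ha : 1 ≤ a) (hb : 1 ≤ b) (g : ℝ → ℝ) (hg : ∀ s, a ≤ s → s ≤ b → 0 ≤ g s) :
    0 ≤ AA x a b g := by
  apply Finset.sum_nonneg
  intro p hp
  obtain ⟨h1, h2, h3, h4⟩ := mem_cell hx ha hb hp
  have := hg _ h1 h2
  have hlx := Real.log_pos hx
  positivity

/-- one cell, constant weight -/
theorem cell_one (a b η : ℝ) (ha : 1 ≤ a) (hab : a ≤ b) (hη : 0 < η) :
    ∀ᶠ x : ℝ in atTop, |AA x a b (fun _ => 1) - (b - a)| ≤ (b - a) ^ 2 + η := by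
  have ha0 : 0 < a := by linarith
  have hb0 : 0 < b := by linarith
  have h1 := cell_inv (1 / b) (1 / a) 1 (η / b) (by positivity) (one_div_le_one_div_of_le ha0 hab) one_pos le_rfl
    (by positivity)
  filter_upwards [h1, eventually_gt_atTop (1 : ℝ)] with x h2 h3
  rw [one_mul] at h2
  have h4 : (1 / a) / (1 / b) = b / a := by field_simp
  rw [h4] at h2
  obtain ⟨h5, h6⟩ := abs_le.1 h2
  have hlx := Real.log_pos h3
  have hup : AA x a b (fun _ => 1) ≤ b * ∑ p ∈ PI ⌊x ^ (1 / b)⌋₊ ⌊x ^ (1 / a)⌋₊, (1 : ℝ) / p := by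
    unfold AA
    rw [Finset.mul_sum]
    apply Finset.sum_le_sum
    intro p hp
    obtain ⟨q1, q2, q3, q4⟩ := mem_cell h3 ha (by linarith) hp
    calc (1 : ℝ) * (Real.log x / (p * Real.log p)) = Real.log x / Real.log p * (1 / p) := by field_simp
      _ ≤ b * (1 / p) := by gcongr
  have hlo : a * ∑ p ∈ PI ⌊x ^ (1 / b)⌋₊ ⌊x ^ (1 / a)⌋₊, (1 : ℝ) / p ≤ AA x a b (fun _ => 1) := by
    unfold AA
    rw [Finset.mul_sum]
    apply Finset.sum_le_sum
    intro p hp
    obtain ⟨q1, q2, q3, q4⟩ := mem_cell h3 ha (by linarith) hp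
    calc a * (1 / p) ≤ Real.log x / Real.log p * (1 / p) := by gcongr
      _ = (1 : ℝ) * (Real.log x / (p * Real.log p)) := by field_simp
  set T := ∑ p ∈ PI ⌊x ^ (1 / b)⌋₊ ⌊x ^ (1 / a)⌋₊, (1 : ℝ) / p with hT
  have hl1 : Real.log (b / a) ≤ (b - a) / a := by
    have := Real.log_le_sub_one_of_pos (show 0 < b / a by positivity)
    calc Real.log (b / a) ≤ b / a - 1 := this
      _ = _ := by field_simp
  have hl2 : (b - a) / b ≤ Real.log (b / a) := by
    have := Real.one_sub_inv_le_log_of_pos (show 0 < b / a by positivity)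
    calc (b - a) / b = 1 - (b / a)⁻¹ := by field_simp
      _ ≤ _ := this
  have hd : 0 ≤ b - a := by linarith
  rw [abs_le]
  constructor
  · have e1 : a * ((b - a) / b - η / b) ≤ a * T := by
      apply mul_le_mul_of_nonneg_left _ ha0.le
      linarith
    have e2 : (b - a) - (b - a) ^ 2 - η ≤ a * ((b - a) / b - η / b) := by
      rw [← sub_div, mul_div_assoc', le_div_iff₀ hb0]
      nlinarith [mul_nonneg hd hd, mul_nonneg (mul_nonneg hd hd) (show (0 : ℝ) ≤ b - 1 by linarith)]
    linarith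
  · have e1 : b * T ≤ b * ((b - a) / a + η / b) := by
      apply mul_le_mul_of_nonneg_left _ hb0.le
      linarith
    have e2 : b * ((b - a) / a + η / b) ≤ (b - a) + (b - a) ^ 2 + η := by
      have e3 : b * ((b - a) / a + η / b) = (b - a) + (b - a) ^ 2 / a + η := by field_simp; ring
      rw [e3]
      have e4 : (b - a) ^ 2 / a ≤ (b - a) ^ 2 := div_le_self (sq_nonneg _) ha
      linarith
    linarith

/-- the integral over a cell -/
theorem int_osc (g : ℝ → ℝ) (hgc : Continuous g) (a b o : ℝ) (hab : a ≤ b)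
    (hosc : ∀ s, a ≤ s → s ≤ b → |g s - g a| ≤ o) : |(∫ s in a..b, g s) - g a * (b - a)| ≤ o * (b - a) := by
  have h1 : (∫ s in a..b, g s) - g a * (b - a) = ∫ s in a..b, (g s - g a) := by
    rw [intervalIntegral.integral_sub (hgc.intervalIntegrable _ _) _root_.intervalIntegrable_const,
      intervalIntegral.integral_const, smul_eq_mul]
    ring
  rw [h1]
  have h2 := intervalIntegral.norm_integral_le_of_norm_le_const (a := a) (b := b) (C := o) (f := fun s => g s - g a)
    (by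
      intro s hs
      rw [Set.uIoc_of_le hab] at hs
      rw [Real.norm_eq_abs]
      exact hosc s hs.1.le hs.2)
  rw [Real.norm_eq_abs, abs_of_nonneg (show 0 ≤ b - a by linarith)] at h2
  exact h2

/-- one cell -/
theorem cell_g (g : ℝ → ℝ) (hgc : Continuous g) (a b η o : ℝ) (ha : 1 ≤ a) (hab : a ≤ b) (hη : 0 < η) (ho : 0 ≤ o)
    (hga : |g a| ≤ 1) (hosc : ∀ s, a ≤ s → s ≤ b → |g s - g a| ≤ o) :
    ∀ᶠ x : ℝ in atTop, |AA x a b g - ∫ s in a..b, g s| ≤ o * (2 * (b - a) + (b - a) ^ 2 + η) + (b - a) ^ 2 + η := by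
  filter_upwards [cell_one a b η ha hab hη, eventually_gt_atTop (1 : ℝ)] with x h1 h3
  have hlx := Real.log_pos h3
  obtain ⟨h5, h6⟩ := abs_le.1 h1
  have e1 : |AA x a b g - g a * AA x a b (fun _ => 1)| ≤ o * AA x a b (fun _ => 1) := by
    unfold AA
    rw [Finset.mul_sum, ← Finset.sum_sub_distrib, Finset.mul_sum]
    refine (Finset.abs_sum_le_sum_abs _ _).trans (Finset.sum_le_sum fun p hp => ?_)
    obtain ⟨q1, q2, q3, q4⟩ := mem_cell h3 ha (by linarith) hp
    rw [one_mul, ← sub_mul, abs_mul, abs_of_nonneg (show 0 ≤ Real.log x / (p * Real.log p) by positivity)]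
    exact mul_le_mul_of_nonneg_right (hosc _ q1 q2) (by positivity)
  have e2 := int_osc g hgc a b o hab hosc
  have e3 : |g a * AA x a b (fun _ => 1) - g a * (b - a)| ≤ (b - a) ^ 2 + η := by
    rw [← mul_sub, abs_mul]
    exact (mul_le_of_le_one_left (abs_nonneg _) hga).trans h1
  have e4 : o * AA x a b (fun _ => 1) ≤ o * ((b - a) + (b - a) ^ 2 + η) :=
    mul_le_mul_of_nonneg_left (by linarith) ho
  rw [abs_le] at e1 e2 e3 ⊢
  constructor
  · nlinarith only [e1.1, e1.2, e2.1, e2.2, e3.1, e3.2, e4]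
  · nlinarith only [e1.1, e1.2, e2.1, e2.2, e3.1, e3.2, e4]

/-- fixed limits -/
theorem sum_g (g : ℝ → ℝ) (hgc : Continuous g) (hg : ∀ s, 2 ≤ s → |g s| ≤ 1) (a b ε : ℝ) (ha : 2 ≤ a) (hab : a ≤ b)
    (hε : 0 < ε) : ∀ᶠ x : ℝ in atTop, |AA x a b g - ∫ s in a..b, g s| ≤ ε := by
  set e : ℝ := min 1 (ε / (2 * (b - a) + 2)) / 8 with he
  have hd : 0 ≤ b - a := by linarith
  have he0 : 0 < e := by positivity
  have he1 : e ≤ 1 / 8 := by
    rw [he]
    have := min_le_left 1 (ε / (2 * (b - a) + 2))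
    linarith
  have he2 : 8 * e * (b - a) ≤ ε / 2 := by
    have h1 : 8 * e ≤ ε / (2 * (b - a) + 2) := by
      rw [he]
      have := min_le_right 1 (ε / (2 * (b - a) + 2))
      linarith
    calc 8 * e * (b - a) ≤ ε / (2 * (b - a) + 2) * (b - a) := by gcongr
      _ = ε * (b - a) / (2 * (b - a) + 2) := by ring
      _ ≤ ε / 2 := by
        rw [div_le_div_iff₀ (by positivity) (by norm_num)]
        nlinarith
  have huc : UniformContinuousOn g (Set.Icc a b) := isCompact_Icc.uniformContinuousOn_of_continuous hgc.continuousOn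
  obtain ⟨δ, hδ0, hδ⟩ := Metric.uniformContinuousOn_iff_le.1 huc e he0
  obtain ⟨K, hK⟩ := exists_nat_gt ((b - a) / min δ e)
  have hm : 0 < min δ e := lt_min hδ0 he0
  have hK0 : (0 : ℝ) < K := lt_of_le_of_lt (by positivity) hK
  set h : ℝ := (b - a) / K with hh
  have hh0 : 0 ≤ h := div_nonneg hd hK0.le
  have hhK : K * h = b - a := by rw [hh]; field_simp
  have hhm : h ≤ min δ e := by
    rw [hh, div_le_iff₀ hK0]
    rw [div_lt_iff₀ hm] at hK
    linarith
  have hhδ : h ≤ δ := hhm.trans (min_le_left _ _)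
  have hhe : h ≤ e := hhm.trans (min_le_right _ _)
  have key : ∀ i : ℕ, i ≤ K → ∀ η : ℝ, 0 < η → ∀ᶠ x : ℝ in atTop,
      |AA x a (a + i * h) g - ∫ s in a..(a + i * h), g s| ≤ 8 * e * (i * h) + η := by
    intro i
    induction i with
    | zero =>
      intro _ η hη
      filter_upwards [] with x
      simp only [Nat.cast_zero, zero_mul, add_zero, intervalIntegral.integral_same, sub_zero, mul_zero, zero_add]
      unfold AA
      rw [PI_empty_of_le le_rfl, Finset.sum_empty, abs_zero]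
      exact hη.le
    | succ i ih =>
      intro hi η hη
      have h1 := ih (by omega) (η / 2) (by positivity)
      have hi' : ((i : ℝ) + 1) * h ≤ b - a := by
        rw [← hhK]
        have : ((i : ℝ) + 1) ≤ K := by exact_mod_cast hi
        gcongr
      have hi0 : 0 ≤ (i : ℝ) * h := by positivity
      have a1 : 2 ≤ a + i * h := by linarith
      have a2 : a + i * h ≤ a + ((i + 1 : ℕ) : ℝ) * h := by push_cast; linarith
      have a4 : a + ((i + 1 : ℕ) : ℝ) * h - (a + i * h) = h := by push_cast; ring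
      have h2 := cell_g g hgc (a + i * h) (a + ((i + 1 : ℕ) : ℝ) * h) (η / 4) e (by linarith) a2 (by positivity) he0.le
        (hg _ a1) (by
          intro s hs1 hs2
          have := hδ s ⟨by linarith, by push_cast at hs2; linarith⟩ (a + i * h) ⟨by linarith, by linarith⟩ (by
            rw [Real.dist_eq, abs_of_nonneg (by linarith)]
            push_cast at hs2
            linarith)
          rwa [Real.dist_eq] at this)
      rw [a4] at h2
      filter_upwards [h1, h2, eventually_gt_atTop (1 : ℝ)] with x h3 h4 h5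
      rw [AA_add h5.le (by linarith) (by linarith : a ≤ a + i * h) a2 g,
        ← intervalIntegral.integral_add_adjacent_intervals (hgc.intervalIntegrable a (a + i * h))
          (hgc.intervalIntegrable (a + i * h) (a + ((i + 1 : ℕ) : ℝ) * h))]
      have e1 : e * (2 * h + h ^ 2 + η / 4) + h ^ 2 + η / 4 ≤ 8 * e * h + η / 2 := by
        have e2 : h ^ 2 ≤ e * h := by nlinarith
        have e3 : e * (η / 4) ≤ η / 4 := by nlinarith
        have e4 : e * h ^ 2 ≤ e * h := by nlinarith [mul_nonneg he0.le hh0]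
        have e5 : 0 ≤ e * h := by positivity
        nlinarith
      have e6 : 8 * e * (((i + 1 : ℕ) : ℝ) * h) = 8 * e * (i * h) + 8 * e * h := by push_cast; ring
      rw [e6]
      rw [abs_le] at h3 h4 ⊢
      constructor
      · linarith [h3.1, h4.1]
      · linarith [h3.2, h4.2]
  have h1 := key K le_rfl (ε / 2) (by positivity)
  have h2 : a + K * h = b := by rw [hhK]; ring
  rw [h2, hhK] at h1
  filter_upwards [h1] with x hx
  linarith

/-- uniform version -/
theorem sum_unif (g : ℝ → ℝ) (hgc : Continuous g) (hg0 : ∀ s, 2 ≤ s → 0 ≤ g s) (hg1 : ∀ s, 2 ≤ s → g s ≤ 1)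
    (a ε : ℝ) (ha : 2 ≤ a) (hε : 0 < ε) :
    ∀ᶠ x : ℝ in atTop, ∀ u : ℝ, a ≤ u → u ≤ a + 1 → |AA x a u g - ∫ s in a..u, g s| ≤ ε := by
  obtain ⟨K, hK⟩ := exists_nat_gt (2 / ε)
  have hK0 : (0 : ℝ) < K := lt_trans (by positivity) hK
  have hK1 : 1 / (K : ℝ) ≤ ε / 2 := by
    rw [div_lt_iff₀ hε] at hK
    rw [div_le_div_iff₀ hK0 (by norm_num)]
    linarith
  have h1 : ∀ᶠ x : ℝ in atTop, ∀ i ∈ Finset.range (K + 2),
      |AA x a (a + i / K) g - ∫ s in a..(a + i / K), g s| ≤ ε / 2 := by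
    rw [Finset.eventually_all]
    intro i _
    exact sum_g g hgc (fun s hs => by rw [abs_of_nonneg (hg0 s hs)]; exact hg1 s hs) a (a + i / K) (ε / 2) ha
      (by have : 0 ≤ (i : ℝ) / K := by positivity
          linarith) (by positivity)
  filter_upwards [h1, eventually_gt_atTop (1 : ℝ)] with x hx hx1
  intro u hu1 hu2
  set i := ⌊(u - a) * K⌋₊ with hi
  have hu0 : 0 ≤ (u - a) * K := mul_nonneg (by linarith) hK0.le
  have i1 : (i : ℝ) ≤ (u - a) * K := Nat.floor_le hu0
  have i2 : (u - a) * K < i + 1 := Nat.lt_floor_add_one _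
  have i3 : i ≤ K := by
    have : (i : ℝ) ≤ K := by nlinarith
    exact_mod_cast this
  have j1 : a + i / K ≤ u := by
    have : (i : ℝ) / K ≤ u - a := by rw [div_le_iff₀ hK0]; exact i1
    linarith
  have j2 : u ≤ a + ((i + 1 : ℕ) : ℝ) / K := by
    have : u - a ≤ ((i + 1 : ℕ) : ℝ) / K := by
      rw [le_div_iff₀ hK0]; push_cast; exact i2.le
    linarith
  have j0 : a ≤ a + i / K := by
    have : 0 ≤ (i : ℝ) / K := by positivity
    linarith
  have c1 := hx i (Finset.mem_range.2 (by omega))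
  have c2 := hx (i + 1) (Finset.mem_range.2 (by omega))
  have m1 : AA x a (a + i / K) g ≤ AA x a u g := by
    rw [AA_add hx1.le (by linarith) j0 j1 g]
    have := AA_nonneg hx1 (show 1 ≤ a + i / K by linarith) (show 1 ≤ u by linarith) g (fun s hs _ => hg0 s (by linarith))
    linarith
  have m2 : AA x a u g ≤ AA x a (a + ((i + 1 : ℕ) : ℝ) / K) g := by
    rw [AA_add hx1.le (by linarith) hu1 j2 g]
    have := AA_nonneg hx1 (show 1 ≤ u by linarith) (show 1 ≤ a + ((i + 1 : ℕ) : ℝ) / K by linarith) g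
      (fun s hs _ => hg0 s (by linarith))
    linarith
  have I1 : ∫ s in a..u, g s = (∫ s in a..(a + i / K), g s) + ∫ s in (a + i / K)..u, g s :=
    (intervalIntegral.integral_add_adjacent_intervals (hgc.intervalIntegrable _ _) (hgc.intervalIntegrable _ _)).symm
  have I2 : ∫ s in a..(a + ((i + 1 : ℕ) : ℝ) / K), g s = (∫ s in a..u, g s) +
      ∫ s in u..(a + ((i + 1 : ℕ) : ℝ) / K), g s :=
    (intervalIntegral.integral_add_adjacent_intervals (hgc.intervalIntegrable _ _) (hgc.intervalIntegrable _ _)).symm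
  have I3 : ∫ s in (a + i / K)..u, g s ≤ 1 / K := by
    calc ∫ s in (a + i / K)..u, g s ≤ ∫ s in (a + i / K)..u, (1 : ℝ) :=
          intervalIntegral.integral_mono_on j1 (hgc.intervalIntegrable _ _) _root_.intervalIntegrable_const
            fun s hs => hg1 s (by linarith [hs.1])
      _ = u - (a + i / K) := by rw [intervalIntegral.integral_const, smul_eq_mul, mul_one]
      _ ≤ 1 / K := by
          have : u ≤ a + (i : ℝ) / K + 1 / K := by
            push_cast at j2
            rw [add_div] at j2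
            linarith
          linarith
  have I4 : ∫ s in u..(a + ((i + 1 : ℕ) : ℝ) / K), g s ≤ 1 / K := by
    calc ∫ s in u..(a + ((i + 1 : ℕ) : ℝ) / K), g s ≤ ∫ s in u..(a + ((i + 1 : ℕ) : ℝ) / K), (1 : ℝ) :=
          intervalIntegral.integral_mono_on j2 (hgc.intervalIntegrable _ _) _root_.intervalIntegrable_const
            fun s hs => hg1 s (by linarith [hs.1])
      _ = a + ((i + 1 : ℕ) : ℝ) / K - u := by rw [intervalIntegral.integral_const, smul_eq_mul, mul_one]
      _ ≤ 1 / K := by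
          have : ((i + 1 : ℕ) : ℝ) / K = (i : ℝ) / K + 1 / K := by push_cast; rw [add_div]
          rw [this]
          linarith
  rw [abs_le] at c1 c2 ⊢
  constructor
  · linarith [c1.1]
  · linarith [c2.2]

end Pool.Agent.R529.BU
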