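import Pool.Agent.H50.G.B.R529.BU.Cell
import Pool.Agent.H50.G.B.R529.LD.Comb
/-!
Buchstab's identity.
-/

set_option autoImplicit false

open Finset Filter Topology
open Pool.Agent.H510R2.Maier Pool.Agent.R529.LD

namespace Pool.Agent.R529.BU

open Classical in
/-- the integers up to `x` without prime factors up to `z` -/
noncomputable def RR (x z : ℝ) : Finset ℕ :=
  (Icc 1 ⌊x⌋₊).filter (fun m : ℕ => ∀ p : ℕ, p.Prime → p ∣ m → z < p)

theorem mem_RR {x z : ℝ} {m : ℕ} : m ∈ RR x z ↔ (1 ≤ m ∧ m ≤ ⌊x⌋₊) ∧ ∀ p : ℕ, p.Prime → p ∣ m → z < p := by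
  classical
  unfold RR
  simp only [Finset.mem_filter, Finset.mem_Icc]

theorem le_of_mem {x z : ℝ} {m : ℕ} (hx : 0 ≤ x) (h : m ∈ RR x z) : (m : ℝ) ≤ x :=
  (Nat.cast_le.2 (mem_RR.1 h).1.2).trans (Nat.floor_le hx)

theorem mem_PIf {z z' : ℝ} (hz : 0 ≤ z) (hz' : 0 ≤ z') {p : ℕ} :
    p ∈ PI ⌊z⌋₊ ⌊z'⌋₊ ↔ (z < p ∧ (p : ℝ) ≤ z') ∧ p.Prime := by
  rw [mem_PI, Nat.floor_lt hz, Nat.le_floor_iff hz']

/-- Buchstab's identity, upper bound -/
theorem buch_up (x z z' : ℝ) (hx : 0 ≤ x) (hz : 1 ≤ z) (hzz : z ≤ z') :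
    ((RR x z).card : ℝ) ≤ (RR x z').card + ∑ p ∈ PI ⌊z⌋₊ ⌊z'⌋₊, ((RR (x / p) p).card : ℝ) + 2 * x / z := by
  classical
  have h1 : RR x z ⊆ RR x z' ∪ ((PI ⌊z⌋₊ ⌊z'⌋₊).biUnion (fun p => (RR (x / p) p).image (fun k => p * k)) ∪
      (PI ⌊z⌋₊ ⌊z'⌋₊).biUnion (fun p => (Icc 1 ⌊x⌋₊).filter (fun m => p ^ 2 ∣ m))) := by
    intro m hm
    have hm1 := mem_RR.1 hm
    rw [Finset.mem_union, Finset.mem_union]
    by_cases hs : ∀ p : ℕ, p.Prime → p ∣ m → z' < p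
    · exact Or.inl (mem_RR.2 ⟨hm1.1, hs⟩)
    · right
      push Not at hs
      obtain ⟨q, hq, hqm, hqz⟩ := hs
      have hne : m ≠ 1 := by
        rintro rfl
        exact hq.one_lt.ne' (Nat.dvd_one.1 hqm)
      have hp := Nat.minFac_prime hne
      have hpd := Nat.minFac_dvd m
      set p := m.minFac with hpdef
      have hpq : p ≤ q := Nat.minFac_le_of_dvd hq.two_le hqm
      have hpz : z < p := hm1.2 p hp hpd
      have hpz' : (p : ℝ) ≤ z' := (Nat.cast_le.2 hpq).trans hqz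
      have hpm : p ∈ PI ⌊z⌋₊ ⌊z'⌋₊ := (mem_PIf (by linarith) (by linarith)).2 ⟨⟨hpz, hpz'⟩, hp⟩
      obtain ⟨k, hk⟩ := hpd
      have hk0 : 0 < k := by
        rcases Nat.eq_zero_or_pos k with h | h
        · rw [h, mul_zero] at hk; omega
        · exact h
      by_cases hpk : p ∣ k
      · right
        obtain ⟨j, hj⟩ := hpk
        refine Finset.mem_biUnion.2 ⟨p, hpm, Finset.mem_filter.2 ⟨Finset.mem_Icc.2 hm1.1, ⟨j, ?_⟩⟩⟩
        rw [hk, hj]; ring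
      · left
        refine Finset.mem_biUnion.2 ⟨p, hpm, Finset.mem_image.2 ⟨k, mem_RR.2 ⟨⟨hk0, ?_⟩, ?_⟩, hk.symm⟩⟩
        · rw [Nat.le_floor_iff (by positivity), le_div_iff₀ (by exact_mod_cast hp.pos)]
          have : (m : ℝ) ≤ x := le_of_mem hx hm
          rw [hk] at this
          push_cast at this
          linarith
        · intro r hr hrk
          have h3 : p ≤ r := Nat.minFac_le_of_dvd hr.two_le (hrk.trans ⟨p, by rw [hk]; ring⟩)
          have h4 : p ≠ r := by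
            rintro rfl
            exact hpk hrk
          exact_mod_cast lt_of_le_of_ne h3 h4
  have h2 : (RR x z).card ≤ (RR x z').card + (∑ p ∈ PI ⌊z⌋₊ ⌊z'⌋₊, (RR (x / p) p).card +
      ∑ p ∈ PI ⌊z⌋₊ ⌊z'⌋₊, ⌊x⌋₊ / p ^ 2) := by
    refine (Finset.card_le_card h1).trans ((Finset.card_union_le _ _).trans ?_)
    apply Nat.add_le_add_left
    refine (Finset.card_union_le _ _).trans (Nat.add_le_add ?_ ?_)
    · exact Finset.card_biUnion_le.trans (Finset.sum_le_sum fun p _ => Finset.card_image_le)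
    · refine Finset.card_biUnion_le.trans (Finset.sum_le_sum fun p hp => ?_)
      rw [show (Icc 1 ⌊x⌋₊) = Ioc 0 ⌊x⌋₊ from rfl, Nat.Ioc_filter_dvd_card_eq_div]
  have h3 : ((RR x z).card : ℝ) ≤ (RR x z').card + (∑ p ∈ PI ⌊z⌋₊ ⌊z'⌋₊, ((RR (x / p) p).card : ℝ) +
      ∑ p ∈ PI ⌊z⌋₊ ⌊z'⌋₊, ((⌊x⌋₊ / p ^ 2 : ℕ) : ℝ)) := by exact_mod_cast h2
  have hz1 : 1 ≤ ⌊z⌋₊ := Nat.le_floor (by exact_mod_cast hz)
  have h4 : ∑ p ∈ PI ⌊z⌋₊ ⌊z'⌋₊, ((⌊x⌋₊ / p ^ 2 : ℕ) : ℝ) ≤ 2 * x / z := by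
    calc ∑ p ∈ PI ⌊z⌋₊ ⌊z'⌋₊, ((⌊x⌋₊ / p ^ 2 : ℕ) : ℝ) ≤ ∑ p ∈ PI ⌊z⌋₊ ⌊z'⌋₊, x * ((p : ℝ) ^ 2)⁻¹ := by
          apply Finset.sum_le_sum
          intro p hp
          refine Nat.cast_div_le.trans ?_
          push_cast
          rw [div_eq_mul_inv]
          exact mul_le_mul_of_nonneg_right (Nat.floor_le hx) (by positivity)
      _ ≤ ∑ p ∈ Ioc ⌊z⌋₊ ⌊z'⌋₊, x * ((p : ℝ) ^ 2)⁻¹ :=
          Finset.sum_le_sum_of_subset_of_nonneg (Finset.filter_subset _ _) fun _ _ _ => by positivity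
      _ = x * ∑ p ∈ Ioc ⌊z⌋₊ ⌊z'⌋₊, ((p : ℝ) ^ 2)⁻¹ := by rw [Finset.mul_sum]
      _ ≤ x * ((⌊z⌋₊ : ℝ)⁻¹ - (⌊z'⌋₊ : ℝ)⁻¹) := by
          apply mul_le_mul_of_nonneg_left _ hx
          exact sum_Ioc_inv_sq_le_sub (by omega) (Nat.floor_le_floor hzz)
      _ ≤ x * (2 / z) := by
          apply mul_le_mul_of_nonneg_left _ hx
          have h5 : (0 : ℝ) ≤ (⌊z'⌋₊ : ℝ)⁻¹ := by positivity
          have h6 : (⌊z⌋₊ : ℝ)⁻¹ ≤ 2 / z := by
            have h7 : (1 : ℝ) ≤ ⌊z⌋₊ := by exact_mod_cast hz1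
            have h8 := Nat.lt_floor_add_one z
            rw [inv_eq_one_div, div_le_div_iff₀ (by linarith) (by linarith)]
            linarith
          linarith
      _ = 2 * x / z := by ring
  linarith

/-- Buchstab's identity, lower bound -/
theorem buch_lo (x z z' : ℝ) (hx : 0 ≤ x) (hz : 1 ≤ z) (hzz : z ≤ z') :
    ((RR x z').card : ℝ) + ∑ p ∈ PI ⌊z⌋₊ ⌊z'⌋₊, ((RR (x / p) p).card : ℝ) ≤ (RR x z).card := by
  classical
  have hmf : ∀ p ∈ PI ⌊z⌋₊ ⌊z'⌋₊, ∀ k ∈ RR (x / p) p, (p * k).minFac = p := by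
    intro p hp k hk
    have hpp := (mem_PI.1 hp).2
    have hk2 := mem_RR.1 hk
    have h1 : p * k ≠ 1 := by
      have := hpp.one_lt
      have := Nat.le_mul_of_pos_right p hk2.1.1
      omega
    have h2 := Nat.minFac_prime h1
    have h3 := Nat.minFac_dvd (p * k)
    rcases (Nat.Prime.dvd_mul h2).1 h3 with h | h
    · exact (Nat.prime_dvd_prime_iff_eq h2 hpp).1 h
    · have h4 := hk2.2 _ h2 h
      have h5 : (p * k).minFac ≤ p := Nat.minFac_le_of_dvd hpp.two_le ⟨k, rfl⟩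
      have h6 : ((p * k).minFac : ℝ) ≤ p := by exact_mod_cast h5
      linarith
  have hdisj : ∀ p ∈ PI ⌊z⌋₊ ⌊z'⌋₊, ∀ q ∈ PI ⌊z⌋₊ ⌊z'⌋₊, p ≠ q →
      Disjoint ((RR (x / p) p).image (fun k => p * k)) ((RR (x / q) q).image (fun k => q * k)) := by
    intro p hp q hq hne
    rw [Finset.disjoint_left]
    intro y hy hy'
    obtain ⟨k, hk, rfl⟩ := Finset.mem_image.1 hy
    obtain ⟨j, hj, he⟩ := Finset.mem_image.1 hy'
    have h1 := hmf p hp k hk
    have h2 := hmf q hq j hj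
    rw [he] at h2
    exact hne (h1.symm.trans h2)
  have hcard : ∑ p ∈ PI ⌊z⌋₊ ⌊z'⌋₊, (RR (x / p) p).card =
      ((PI ⌊z⌋₊ ⌊z'⌋₊).biUnion (fun p => (RR (x / p) p).image (fun k => p * k))).card := by
    rw [Finset.card_biUnion hdisj]
    apply Finset.sum_congr rfl
    intro q hq
    rw [Finset.card_image_of_injective]
    intro a b hab
    exact Nat.eq_of_mul_eq_mul_left (mem_PI.1 hq).2.pos hab
  have h2 : (RR x z').card + ∑ p ∈ PI ⌊z⌋₊ ⌊z'⌋₊, (RR (x / p) p).card ≤ (RR x z).card := by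
    rw [hcard, ← Finset.card_union_of_disjoint]
    · apply Finset.card_le_card
      intro m hm
      rw [Finset.mem_union] at hm
      rcases hm with hm | hm
      · have h1 := mem_RR.1 hm
        exact mem_RR.2 ⟨h1.1, fun p hp hd => hzz.trans_lt (h1.2 p hp hd)⟩
      · obtain ⟨p, hp, hm⟩ := Finset.mem_biUnion.1 hm
        obtain ⟨k, hk, rfl⟩ := Finset.mem_image.1 hm
        have hp2 := (mem_PIf (by linarith) (by linarith)).1 hp
        have hk2 := mem_RR.1 hk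
        have hp0 : (0 : ℝ) < p := by exact_mod_cast hp2.2.pos
        refine mem_RR.2 ⟨⟨Nat.mul_pos hp2.2.pos hk2.1.1, ?_⟩, ?_⟩
        · rw [Nat.le_floor_iff hx]
          have h3 : (k : ℝ) ≤ x / p := le_of_mem (by positivity) hk
          rw [le_div_iff₀ hp0] at h3
          push_cast
          linarith
        · intro q hq hd
          rcases (Nat.Prime.dvd_mul hq).1 hd with h | h
          · rw [(Nat.prime_dvd_prime_iff_eq hq hp2.2).1 h]
            exact hp2.1.1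
          · exact hp2.1.1.trans (hk2.2 q hq h)
    · rw [Finset.disjoint_left]
      intro m hm hm'
      obtain ⟨p, hp, hm'⟩ := Finset.mem_biUnion.1 hm'
      obtain ⟨k, hk, rfl⟩ := Finset.mem_image.1 hm'
      have hp2 := (mem_PIf (by linarith) (by linarith)).1 hp
      have h3 := (mem_RR.1 hm).2 p hp2.2 ⟨k, rfl⟩
      linarith [hp2.1.2]
  exact_mod_cast h2

/-- the range of primes -/
theorem RR_prime_up (x z : ℝ) (hz : 1 ≤ z) (hx : 0 ≤ x) (hxz : x ≤ z ^ 2) :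
    ((RR x z).card : ℝ) ≤ 1 + Nat.primeCounting ⌊x⌋₊ := by
  classical
  have h1 : RR x z ⊆ {1} ∪ (Finset.range (⌊x⌋₊ + 1)).filter Nat.Prime := by
    intro m hm
    have hm1 := mem_RR.1 hm
    rw [Finset.mem_union, Finset.mem_singleton, Finset.mem_filter, Finset.mem_range]
    by_cases hone : m = 1
    · exact Or.inl hone
    · right
      refine ⟨by omega, ?_⟩
      by_contra hnp
      have h2 := Nat.minFac_sq_le_self hm1.1.1 hnp
      have h3 := hm1.2 _ (Nat.minFac_prime hone) (Nat.minFac_dvd m)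
      have h4 : ((m.minFac : ℕ) : ℝ) ^ 2 ≤ m := by exact_mod_cast h2
      have h5 : (m : ℝ) ≤ x := le_of_mem hx hm
      nlinarith
  have h2 : (RR x z).card ≤ 1 + Nat.primeCounting ⌊x⌋₊ := by
    refine (Finset.card_le_card h1).trans ((Finset.card_union_le _ _).trans ?_)
    rw [Nat.primeCounting, Nat.primeCounting', Nat.count_eq_card_filter_range, Finset.card_singleton]
  exact_mod_cast h2

theorem pi_le_self (n : ℕ) : Nat.primeCounting n ≤ n := by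
  have h2 : Nat.primeCounting n = ((Finset.range (n + 1)).filter Nat.Prime).card := by
    rw [Nat.primeCounting, Nat.primeCounting', Nat.count_eq_card_filter_range]
  rw [h2]
  calc ((Finset.range (n + 1)).filter Nat.Prime).card ≤ ((Finset.range (n + 1)).erase 0).card := by
        apply Finset.card_le_card
        intro p hp
        rw [Finset.mem_filter] at hp
        rw [Finset.mem_erase]
        exact ⟨hp.2.ne_zero, hp.1⟩
    _ = n := by rw [Finset.card_erase_of_mem (by simp)]; simp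

theorem RR_prime_lo (x z : ℝ) (hz : 1 ≤ z) (hx : 0 ≤ x) :
    (Nat.primeCounting ⌊x⌋₊ : ℝ) - z ≤ ((RR x z).card : ℝ) := by
  have h1 := card_PI_ge ⌊z⌋₊ ⌊x⌋₊
  have h2 : (Nat.primeCounting ⌊z⌋₊ : ℝ) ≤ z := by
    have h3 : (Nat.primeCounting ⌊z⌋₊ : ℝ) ≤ (⌊z⌋₊ : ℝ) := by exact_mod_cast pi_le_self ⌊z⌋₊
    exact h3.trans (Nat.floor_le (by linarith))
  have h3 : (PI ⌊z⌋₊ ⌊x⌋₊).card ≤ (RR x z).card := by
    apply Finset.card_le_card
    intro p hp
    have hp1 := (mem_PIf (by linarith) hx).1 hp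
    refine mem_RR.2 ⟨⟨hp1.2.one_lt.le, ?_⟩, ?_⟩
    · rw [Nat.le_floor_iff hx]
      exact hp1.1.2
    · intro q hq hd
      rw [(Nat.prime_dvd_prime_iff_eq hq hp1.2).1 hd]
      exact hp1.1.1
  have h4 : ((PI ⌊z⌋₊ ⌊x⌋₊).card : ℝ) ≤ (RR x z).card := by exact_mod_cast h3
  linarith

end Pool.Agent.R529.BU
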